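import Pool.Agent.Lib.MP_b5021c_nt.BP.H52.Qse
import Pool.Agent.Lib.MP_b5021c_nt.BP.H57.T2n
import Pool.Agent.Lib.MP_b5021c_nt.BP.H90.Exh

/-!
# Board b5, BpS, row (D) (helper52): `M c = 1` for the second closing at `eta`, full rank

`mc_one`: `H` in `DD` over `Eis`, rank `2N - 2`, `w H_0 = v`, `v(0) = N - eta`,
`w u H_b = -bt`, `bt(0) = 1`, the closing `w^b = u` of full rank: its content has measure one.
-/

namespace Pool.Agent.B5.BP52

open scoped LaurentPolynomial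
open Polynomial Pool.Agent.B5
open Pool.Agent.MP_b5021c_nt (Eis)
open Pool.Agent.B5.BP57 (nE_al bev_dvd nopureO fac_rkE finrank_kerO ray_polyU zf_of_unit
  classV_of eta_val nf_of_unit norm_unit)
open Pool.Agent.B5.BP90 (Et embN)
open Pool.Agent.B5.H93 (nE_cast three_le_nE classV_const)

set_option linter.unusedSectionVars false

/-! ## Numbers -/

theorem real_core {m a s r : ℝ} (hm : 9 ≤ m) (ha0 : 0 < a) (ha : a ^ 2 = (m ^ 2 + 3) / 4)
    (hr0 : 0 < r) (hr : r ^ 2 = 3) (hsr : r ≤ s) (hra : r * s ≤ a) :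
    a ^ 2 + m < (m - 2 * s) * s * a := by
  have hr1 : 1.732 ≤ r := by
    by_contra h
    push Not at h
    nlinarith
  have ha1 : m / 2 ≤ a := by
    by_contra h
    push Not at h
    nlinarith
  have ha2 : a ≤ m / 2 + 1 / 10 := by
    by_contra h
    push Not at h
    nlinarith
  have hs3 : 3 ≤ s ^ 2 := by nlinarith
  have h1 : r * (a + s ^ 2) ≤ s * (a + 3) := by
    have h2 := mul_nonneg (sub_nonneg.mpr hsr) (sub_nonneg.mpr hra)
    nlinarith
  have h2 : m * (r * (a + s ^ 2)) ≤ m * (s * (a + 3)) :=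
    mul_le_mul_of_nonneg_left h1 (by linarith)
  have h3 : 0 ≤ m * r - 2 * a - 6 := by nlinarith
  have h4 : (a + 3) * (m * r - 6) ≤ (a + 3) * (m * s - 2 * s ^ 2) := by
    have h5 := mul_le_mul_of_nonneg_right hs3 h3
    nlinarith
  have h5 : m * r - 6 ≤ m * s - 2 * s ^ 2 := le_of_mul_le_mul_left h4 (by linarith)
  have h6 : (m * r - 6) * a ≤ (m - 2 * s) * s * a := by
    have : (m - 2 * s) * s = m * s - 2 * s ^ 2 := by ring
    rw [this]
    exact mul_le_mul_of_nonneg_right h5 ha0.le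
  have h7 : a + 2 < m * r - 6 := by nlinarith
  have h8 : (a + 2) * a < (m * r - 6) * a := mul_lt_mul_of_pos_right h7 ha0
  nlinarith

/-- the numbers, `N ≥ 4`. -/
theorem num_mc {N x y t : ℕ} (hN : 4 ≤ N) (hx : 3 ≤ x) (hy : y = 1 ∨ 3 ≤ y)
    (h : x * y = N * N + 3 - 3 * N)
    (h1 : (t : ℝ) * Real.sqrt y * Real.sqrt ((N * N + 3 - 3 * N : ℕ) : ℝ) ≤ (N : ℝ) * N - N)
    (h2 : 2 * N ≤ t + Bbg y + 3) : False := by
  have hNR : (4 : ℝ) ≤ N := by exact_mod_cast hN
  have hA : ((N * N + 3 - 3 * N : ℕ) : ℝ) = (N : ℝ) * N - 3 * N + 3 := by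
    have h3 : 3 * N ≤ N * N + 3 := by nlinarith
    rw [Nat.cast_sub h3]
    push_cast
    ring
  obtain ⟨a, ha⟩ : ∃ a : ℝ, a = Real.sqrt ((N * N + 3 - 3 * N : ℕ) : ℝ) := ⟨_, rfl⟩
  have hApos : (0 : ℝ) < ((N * N + 3 - 3 * N : ℕ) : ℝ) := by
    rw [hA]
    nlinarith
  have ha0 : 0 < a := by rw [ha]; exact Real.sqrt_pos.mpr hApos
  have haa : a ^ 2 = (N : ℝ) * N - 3 * N + 3 := by
    rw [ha, Real.sq_sqrt hApos.le, hA]
  rw [← ha] at h1
  rcases hy with hy | hy
  · subst hy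
    have hB : Bbg 1 = 0 := by unfold Bbg; simp
    rw [hB, add_zero] at h2
    have h3 : (2 : ℝ) * N ≤ t + 3 := by exact_mod_cast h2
    rw [Nat.cast_one, Real.sqrt_one, mul_one] at h1
    have h4 : (N : ℝ) - 3 / 2 ≤ a := by
      by_contra h5
      push Not at h5
      nlinarith
    have h5 : (2 * (N : ℝ) - 3) * (N - 3 / 2) ≤ t * a := by
      apply mul_le_mul (by linarith) h4 (by linarith)
      exact Nat.cast_nonneg t
    nlinarith
  · have h3 : Bbg y = Nat.sqrt (4 * y) := by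
      unfold Bbg
      rw [if_neg (by omega), bev_dvd (N := N) (by omega) hy ⟨x, by rw [← h]; ring⟩]
    have hN6 : 6 ≤ N := by
      by_contra h4
      have h5 : N = 4 ∨ N = 5 := by omega
      rcases h5 with rfl | rfl
      · have h6 : 9 ≤ x * y := Nat.mul_le_mul hx hy
        omega
      · have h6 : x ≤ 4 := by
          by_contra h7
          have h8 : 5 * 3 ≤ x * y := Nat.mul_le_mul (by omega) hy
          omega
        have h7 : y ≤ 4 := by
          by_contra h7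
          have h8 : 3 * 5 ≤ x * y := Nat.mul_le_mul hx (by omega)
          omega
        interval_cases x <;> interval_cases y <;> omega
    have hN6R : (6 : ℝ) ≤ N := by exact_mod_cast hN6
    have hy0 : (3 : ℝ) ≤ (y : ℝ) := by exact_mod_cast hy
    obtain ⟨s, hs⟩ : ∃ s : ℝ, s = Real.sqrt (y : ℝ) := ⟨_, rfl⟩
    have hss : s ^ 2 = y := by rw [hs, Real.sq_sqrt (by linarith)]
    have hs0 : 0 ≤ s := by rw [hs]; exact Real.sqrt_nonneg _
    rw [← hs] at h1
    obtain ⟨B, hB⟩ : ∃ B : ℕ, B = Nat.sqrt (4 * y) := ⟨_, rfl⟩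
    have hBB : B * B ≤ 4 * y := by rw [hB]; exact Nat.sqrt_le (4 * y)
    have hBR : (B : ℝ) * B ≤ 4 * y := by exact_mod_cast hBB
    have hBs : (B : ℝ) ≤ 2 * s := by
      by_contra h5
      push Not at h5
      nlinarith
    rw [h3, ← hB] at h2
    have h2R : (2 : ℝ) * N ≤ t + B + 3 := by exact_mod_cast h2
    have h3y : 3 * (y : ℝ) ≤ a ^ 2 := by
      rw [haa, ← hA]
      have h5 : 3 * y ≤ N * N + 3 - 3 * N := by
        rw [← h]
        exact Nat.mul_le_mul_right y hx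
      exact_mod_cast h5
    obtain ⟨r, hr⟩ : ∃ r : ℝ, r = Real.sqrt 3 := ⟨_, rfl⟩
    have hrr : r ^ 2 = 3 := by rw [hr, Real.sq_sqrt (by norm_num)]
    have hr0 : 0 < r := by rw [hr]; exact Real.sqrt_pos.mpr (by norm_num)
    have hsr : r ≤ s := by
      by_contra h5
      push Not at h5
      nlinarith
    have hra : r * s ≤ a := by
      by_contra h5
      push Not at h5
      have h6 : a ^ 2 < (r * s) ^ 2 := pow_lt_pow_left₀ h5 ha0.le two_ne_zero
      rw [mul_pow, hrr, hss] at h6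
      linarith
    have hcore := real_core (m := 2 * (N : ℝ) - 3) (a := a) (s := s) (r := r) (by linarith) ha0
      (by rw [haa]; ring) hr0 hrr hsr hra
    have h5 : (2 * (N : ℝ) - 3 - 2 * s) * s * a ≤ t * s * a := by
      apply mul_le_mul_of_nonneg_right _ ha0.le
      apply mul_le_mul_of_nonneg_right _ hs0
      linarith
    nlinarith

/-! ## The mean of a nonnegative element -/

/-- as `BP90.t03w`, with a factor `kap`: the mean of the masses. -/
theorem msum (hNr : Nr3S) (hHp : HpgS) {O : Type} [CommRing O] [IsDomain O]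
    [IsPrincipalIdealRing O] [Coef O] (t : RO O) (kap : ℝ) (hkap : 0 < kap) (q b : O[X])
    (ht0 : t ≠ 0) (hnn : NnR t)
    (hq : ∀ z : ℂ, ‖z‖ ≤ 1 → (q.map (Coef.emb : O →+* ℂ)).eval z ≠ 0)
    (hvz : ZF ((q + b).map (Coef.emb : O →+* ℂ)))
    (hle : ∀ z : ℂ, ‖z‖ = 1 → ‖(b.map (Coef.emb : O →+* ℂ)).eval z‖ ≤
      ‖(q.map (Coef.emb : O →+* ℂ)).eval z‖)
    (hyp : ∀ z : Circle, (evR z t).re * ‖((q + b).map (Coef.emb : O →+* ℂ)).eval (z : ℂ)‖ ^ 2 ≤
      kap * (2 * ((q.map (Coef.emb : O →+* ℂ)).eval (z : ℂ) *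
        (starRingEnd ℂ) (((q + b).map (Coef.emb : O →+* ℂ)).eval (z : ℂ))).re -
        ‖((q + b).map (Coef.emb : O →+* ℂ)).eval (z : ℂ)‖ ^ 2)) :
    (Coef.emb (t.coeff 0) : ℂ).re * ‖(Coef.emb ((q + b).coeff 0) : ℂ)‖ ^ 2 ≤
      kap * (2 * ((Coef.emb (q.coeff 0) : ℂ) * (starRingEnd ℂ) (Coef.emb ((q + b).coeff 0))).re -
        ‖(Coef.emb ((q + b).coeff 0) : ℂ)‖ ^ 2) := by
  obtain ⟨him, hco, hor⟩ := hNr O t ht0 hnn
  set t0 : ℝ := (Coef.emb (t.coeff 0) : ℂ).re with ht0def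
  have ht1 : 0 ≤ t0 := by
    rcases hor with h | h
    · rw [ht0def, h]
      have h1 : (1 : RO O).coeff 0 = 1 := by
        rw [show (1 : RO O) = LaurentPolynomial.C 1 from (map_one _).symm]
        rw [← mul_one (LaurentPolynomial.C (1 : O) : RO O), ← LaurentPolynomial.T_zero,
          ← LaurentPolynomial.single_eq_C_mul_T, AddMonoidAlgebra.coeff_single,
          Finsupp.single_eq_same]
      rw [h1, map_one, Complex.one_re]
      exact zero_le_one
    · linarith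
  obtain ⟨n, hre⟩ := H03.re_evR t (fun k hk => (hco k hk).2)
  set tp : ℂ[X] := H03.tpl t n with htp
  set qc : ℂ[X] := q.map (Coef.emb : O →+* ℂ) with hqcdef
  set bc : ℂ[X] := b.map (Coef.emb : O →+* ℂ) with hbcdef
  set vc : ℂ[X] := (q + b).map (Coef.emb : O →+* ℂ) with hvcdef
  have hvc : vc = qc + bc := by rw [hvcdef, Polynomial.map_add]
  set W : ℂ[X] := C (kap : ℂ) * (C 2 * qc - vc) - (C (t0 : ℂ) + C 2 * tp) * vc with hW
  have hWe : ∀ s : ℂ, W.eval s = kap * (2 * qc.eval s - vc.eval s) -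
      (t0 + 2 * tp.eval s) * vc.eval s := by
    intro s
    rw [hW]
    simp only [eval_sub, eval_mul, eval_add, eval_C]
  have hWre : ∀ s : ℂ, (W.eval s * (starRingEnd ℂ) (vc.eval s)).re =
      kap * (2 * (qc.eval s * (starRingEnd ℂ) (vc.eval s)).re - ‖vc.eval s‖ ^ 2) -
        (t0 + 2 * (tp.eval s).re) * ‖vc.eval s‖ ^ 2 := by
    intro s
    have h4 : vc.eval s * (starRingEnd ℂ) (vc.eval s) = ((‖vc.eval s‖ ^ 2 : ℝ) : ℂ) := by
      rw [Complex.mul_conj, Complex.normSq_eq_norm_sq]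
    have h5 : W.eval s * (starRingEnd ℂ) (vc.eval s) =
        ((kap : ℝ) : ℂ) * (((2 : ℝ) : ℂ) * (qc.eval s * (starRingEnd ℂ) (vc.eval s)) -
          ((‖vc.eval s‖ ^ 2 : ℝ) : ℂ)) -
          (t0 + ((2 : ℝ) : ℂ) * tp.eval s) * ((‖vc.eval s‖ ^ 2 : ℝ) : ℂ) := by
      rw [← h4, hWe]
      push_cast
      ring
    rw [h5, Complex.sub_re, Complex.re_ofReal_mul, Complex.sub_re, Complex.re_ofReal_mul,
      Complex.ofReal_re, Complex.re_mul_ofReal, Complex.add_re, Complex.ofReal_re,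
      Complex.re_ofReal_mul]
  set C0 : ℝ := t0 + 2 * ∑ k ∈ Finset.range n, ‖(Coef.emb (t.coeff ((k : ℤ) + 1)) : ℂ)‖ with hC0
  have key := hHp vc W C0 hvz ?_ ?_
  · have key0 := key 0 (by simp)
    rw [hWre 0] at key0
    have h6 : (tp.eval 0).re = 0 := by
      rw [← coeff_zero_eq_eval_zero, htp, H03.tpl_coeff_zero, Complex.zero_re]
    rw [h6] at key0
    have e1 : (Coef.emb (q.coeff 0) : ℂ) = qc.eval 0 := by
      rw [← coeff_zero_eq_eval_zero, hqcdef, coeff_map]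
    have e2 : (Coef.emb ((q + b).coeff 0) : ℂ) = vc.eval 0 := by
      rw [← coeff_zero_eq_eval_zero, hvcdef, coeff_map]
    rw [e1, e2]
    linarith
  · intro s hs
    rw [hWre s]
    have h1 := H29.mxp (q := qc) (v := vc) hq (fun z hz => by
      rw [hvc, eval_add, add_sub_cancel_left]
      exact hle z hz) s hs.le
    have h2 : 0 ≤ 2 * (qc.eval s * (starRingEnd ℂ) (vc.eval s)).re - ‖vc.eval s‖ ^ 2 := by
      have h4 : ‖vc.eval s - qc.eval s‖ ^ 2 ≤ ‖qc.eval s‖ ^ 2 :=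
        pow_le_pow_left₀ (norm_nonneg _) h1 2
      have h5 : ‖vc.eval s - qc.eval s‖ ^ 2 = ‖vc.eval s‖ ^ 2 -
          2 * (qc.eval s * (starRingEnd ℂ) (vc.eval s)).re + ‖qc.eval s‖ ^ 2 := by
        rw [← Complex.normSq_eq_norm_sq, ← Complex.normSq_eq_norm_sq, ← Complex.normSq_eq_norm_sq]
        simp only [Complex.normSq_apply, Complex.sub_re, Complex.sub_im, Complex.mul_re,
          Complex.conj_re, Complex.conj_im]
        ring
      linarith
    have h6 : (tp.eval s).re ≤ ∑ k ∈ Finset.range n, ‖(Coef.emb (t.coeff ((k : ℤ) + 1)) : ℂ)‖ := by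
      refine (Complex.re_le_norm _).trans ?_
      rw [htp, H03.tpl_eval]
      refine (norm_sum_le _ _).trans (Finset.sum_le_sum fun k _ => ?_)
      rw [norm_mul, norm_pow]
      exact mul_le_of_le_one_right (norm_nonneg _) (pow_le_one₀ (norm_nonneg _) hs.le)
    have h7 : 0 ≤ ‖vc.eval s‖ ^ 2 := sq_nonneg _
    have h8 := mul_nonneg hkap.le h2
    nlinarith
  · intro s hs
    rw [hWre s]
    obtain ⟨w, rfl⟩ : ∃ w : Circle, (w : ℂ) = s := ⟨⟨s, mem_sphere_zero_iff_norm.mpr hs⟩, rfl⟩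
    have h1 := hyp w
    have h2 := hre w
    rw [h2] at h1
    linarith

/-! ## The numbers of one closing -/

section

variable {P L : Type} [Fintype P] [DecidableEq P] [AddCommGroup L] [Module.Free ℤ L]
  [Module.Finite ℤ L] {phi : L →+ (P → ℤ)}

/-- the norms of the content and of the big factors (part of `H93.cev`, with `ImS`). -/
theorem norms (hE1 : E1S) (hMV : MVS) (hMm : MmulS) (hG1 : G1pS) (hLsn : LsnS) (hR : ResWDS)
    (hRS : ResStS) (hEv : EvS) (hEvm : EvmS) {H : AO Eis L} {b : L} {j : P} {u : (RO Eis)ˣ}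
    {hj : co phi j b = 1} {c : RO Eis} {n : ℕ} {G : Fin n → AO Eis (Ker (co phi j))}
    (fd : FD phi H b j u hj c n G) (hI : ImS phi b) {be : Eis}
    (hcl : ClassV ‖(Coef.emb be : ℂ)‖ (H.coeff 0 + (u : RO Eis) * H.coeff b)) :
    ∃ (gc : Eis) (nb : ℕ), ‖(Coef.emb gc : ℂ)‖ = M c ∧ (nb = 1 ∨ 3 ≤ nb) ∧
      nE gc * nb = nE be ∧
      rk (supp (cl (co phi j) b hj u H)) ≤ (snp phi b j G).card + Bbg nb ∧
      ((snp phi b j G).card : ℝ) * Real.sqrt nb * Real.sqrt (nE be) + M (H.coeff b) ^ 2 ≤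
        M (H.coeff 0) ^ 2 := by
  classical
  have hMVv : M (H.coeff 0 + (u : RO Eis) * H.coeff b) = ‖(Coef.emb be : ℂ)‖ :=
    ((hMV Eis).1 _ _ hcl).2
  have hbe1 : 1 ≤ ‖(Coef.emb be : ℂ)‖ := hcl.1
  have hrk := hG1 Eis P L phi H b j u hj c n G fd
    (fun i b _ hp _ => absurd hp (nopureO hI fd i))
  have hls := hLsn Eis P L phi H b j u hj c n G fd
  rw [hMVv] at hls
  rw [fd.v00] at hcl
  obtain ⟨Nc, Np, h1, h2, hNN⟩ := (hE1 Eis).1 _ _ _ hcl
  obtain ⟨h3, h4⟩ := Clo.classV_prod hE1 hMV hMm (fun i => (G i).coeff 0) Finset.univ Np h2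
  have hex : ∀ i, ∃ ga : Eis, ‖(Coef.emb ga : ℂ)‖ = M ((G i).coeff 0) :=
    fun i => classV_const (h3 i (Finset.mem_univ i))
  choose ga hga using hex
  obtain ⟨gc, hgc⟩ := classV_const h1
  have hMc : M c = Nc := ((hMV Eis).1 _ _ h1).2
  have hone : ∀ i, 1 ≤ M ((G i).coeff 0) := fun i => (h3 i (Finset.mem_univ i)).1
  have hall : ∏ i, M ((G i).coeff 0) = ∏ i ∈ big G, M ((G i).coeff 0) := by
    symm
    apply Finset.prod_subset (Finset.subset_univ _)
    intro i _ hi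
    unfold big at hi
    rw [Finset.mem_filter] at hi
    have h5 : ¬ 1 < M ((G i).coeff 0) := fun h6 => hi ⟨Finset.mem_univ i, h6⟩
    exact le_antisymm (not_lt.1 h5) (hone i)
  have hbig : ∀ i ∈ big G, 1 < M ((G i).coeff 0) := by
    intro i hi
    unfold big at hi
    rw [Finset.mem_filter] at hi
    exact hi.2
  have h3le : ∀ i ∈ big G, 3 ≤ nE (ga i) := by
    intro i hi
    apply three_le_nE
    rw [hga i]
    exact hbig i hi
  have hnb : ((∏ i ∈ big G, nE (ga i) : ℕ) : ℝ) = (∏ i ∈ big G, M ((G i).coeff 0)) ^ 2 := by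
    rw [Nat.cast_prod, ← Finset.prod_pow]
    refine Finset.prod_congr rfl fun i _ => ?_
    rw [nE_cast, hga i]
  have hprod0 : 0 ≤ ∏ i ∈ big G, M ((G i).coeff 0) :=
    Finset.prod_nonneg fun i _ => zero_le_one.trans (hone i)
  have hcn : nE gc * ∏ i ∈ big G, nE (ga i) = nE be := by
    have h5 : ((nE gc * ∏ i ∈ big G, nE (ga i) : ℕ) : ℝ) = ((nE be : ℕ) : ℝ) := by
      rw [Nat.cast_mul, hnb, nE_cast gc, nE_cast be, hgc, hNN, h4, ← hall]
      ring
    exact_mod_cast h5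
  refine ⟨gc, ∏ i ∈ big G, nE (ga i), by rw [hgc, hMc], ?_, hcn, ?_, ?_⟩
  · rcases Finset.eq_empty_or_nonempty (big G) with he | ⟨i, hi⟩
    · left
      rw [he, Finset.prod_empty]
    · right
      refine (h3le i hi).trans (Nat.le_of_dvd ?_ (Finset.dvd_prod_of_mem _ hi))
      apply Finset.prod_pos
      intro j hj
      have := h3le j hj
      omega
  · have h5 : ∀ i ∈ big G, rk (supp (G i)) ≤ Bev (nE (ga i)) := fun i _ =>
      fac_rkE hEv hR hRS hI fd i (by rw [hga i]; exact h3 i (Finset.mem_univ i))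
    have h6 := hEvm.2.2.2 (Fin n) (big G) (fun i => nE (ga i)) h3le
    have h7 := Finset.sum_le_sum h5
    omega
  · have h5 : Real.sqrt ((∏ i ∈ big G, nE (ga i) : ℕ) : ℝ) =
        ∏ i ∈ big G, M ((G i).coeff 0) := by
      rw [hnb, Real.sqrt_sq hprod0]
    rw [h5, nE_cast, Real.sqrt_sq (norm_nonneg _)]
    exact hls

end

/-! ## `N = 3`: integrality of the masses -/

/-- a positive real element divisible by `conj k0`, `norm k0 = 1` or `3`: at least `norm k0`. -/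
theorem mass_int {x s k0 : Eis} (h : x = (Coef.conj : Eis ≃+* Eis) k0 * s)
    (him : (Coef.emb x : ℂ).im = 0) (hpos : 0 < (Coef.emb x : ℂ).re) {m : ℕ} (hk : nE k0 = m)
    (hm : m = 1 ∨ m = 3) : (m : ℝ) ≤ (Coef.emb x : ℂ).re := by
  obtain ⟨r, hr⟩ := BP57.real_int x him
  have hrr : (Coef.emb x : ℂ) = (r : ℂ) := by rw [hr, map_intCast]
  have hre : (Coef.emb x : ℂ).re = (r : ℝ) := by rw [hrr, Complex.intCast_re]
  rw [hre] at hpos ⊢
  have hr1 : 1 ≤ r := by
    have : (0 : ℤ) < r := by exact_mod_cast hpos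
    omega
  rcases hm with rfl | rfl
  · rw [Nat.cast_one]
    exact_mod_cast hr1
  · -- `r ^ 2 = 3 norm s`
    have h1 : (r : ℝ) ^ 2 = 3 * (nE s : ℝ) := by
      have h2 : ‖(Coef.emb x : ℂ)‖ ^ 2 = (nE k0 : ℝ) * (nE s : ℝ) := by
        rw [h, map_mul, norm_mul, mul_pow, Coef.emb_conj, RCLike.norm_conj, ← nE_cast,
          ← nE_cast]
      rw [hrr, Complex.norm_intCast, sq_abs, hk] at h2
      rw [h2]
      norm_num
    have h2 : r ^ 2 = 3 * (nE s : ℤ) := by exact_mod_cast h1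
    have h3 : (3 : ℤ) ∣ r := by
      have h4 : (3 : ℤ) ∣ r ^ 2 := ⟨_, h2⟩
      exact Int.prime_three.dvd_of_dvd_pow h4
    obtain ⟨k, hk'⟩ := h3
    have h4 : (3 : ℤ) ≤ r := by omega
    exact_mod_cast h4

section Main

variable {P L : Type} [Fintype P] [DecidableEq P] [AddCommGroup L] [Module.Free ℤ L]
  [Module.Finite ℤ L] {phi : L →+ (P → ℤ)}

/-- **(D)**: the content of the second closing at `eta` has measure one. -/
theorem mc_one (hSm : SmallS) (hQst : QstS) (hQp : Qp3S) (hKe : KerEvS) (hMm : MmulS)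
    (hMV : MVS) (hE1 : E1S) (hDb : Db3S) (hNn : Nn3S) (hHp3 : Hp3S) (hGen : GenS)
    (hSl : SlEvalS) (hEvR : EvRS) (hSh : SharpS) (hDe : DensS) (hZ : ZfinS) (hUA : UnitAS)
    (hFace : FaceS) (hStS : StSpecS) (hMu : MultiS) (hE2 : E2S) (hPr : PrimS) (hB3 : B3S)
    (hFull : FullS) (hG1 : G1pS) (hLsn : LsnS) (hR : ResWDS) (hRS : ResStS) (hEv : EvS)
    (hEvm : EvmS) (hU : UnitRS) (hVZ : VZS) (hRk : RkS) (hNd : Nd3vS) (hNr : Nr3S) (hHp : HpgS)
    {H : AO Eis L} {b : L} {j : P} {u : (RO Eis)ˣ}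
    {hj : co phi j b = 1} {c : RO Eis} {n : ℕ} {G : Fin n → AO Eis (Ker (co phi j))}
    (fd : FD phi H b j u hj c n G) (hI : ImS phi b)
    {et : Eis} (he : Et et) {N : ℕ} (hN : 3 ≤ N) (hr : Module.finrank ℤ L + 2 = 2 * N)
    {NV : ℝ} (hcv : ClassV NV (H.coeff 0)) {w : (RO Eis)ˣ} {v bt : Eis[X]}
    (hv : (w : RO Eis) * H.coeff 0 = toLaurent v)
    (hv0 : v.coeff 0 = ((N : ℤ) : Eis) - et)
    (hb : (w : RO Eis) * ((u : RO Eis) * H.coeff b) = -toLaurent bt) (hb0 : bt.coeff 0 = 1)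
    (hfull : rk (supp (cl (co phi j) b hj u H)) = Module.finrank ℤ (Ker (co phi j))) :
    M c = 1 := by
  classical
  obtain ⟨al, hal⟩ : ∃ al : Eis, al = ((N : ℤ) : Eis) - et - 1 := ⟨_, rfl⟩
  have hN3 : (3 : ℝ) ≤ N := by exact_mod_cast hN
  have hker := finrank_kerO hRk hj
  -- the apex
  have hv0ne : v.coeff 0 ≠ 0 := by
    intro h1
    have h2 := eta_val he hv0
    rw [h1, map_zero, norm_zero] at h2
    linarith
  obtain ⟨hvz, hvN⟩ := zf_of_unit hU hcv hv hv0ne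
  obtain ⟨hvcl, hle, hlt⟩ := ray_polyU hE2 hVZ fd.cc.dd fd.cc.two fd.cc.ray hv hb hvz
  have hap : (w : RO Eis) * (H.coeff 0 + (u : RO Eis) * H.coeff b) = toLaurent (v - bt) := by
    rw [mul_add, hv, hb, map_sub, sub_eq_add_neg]
  have hap0 : (v - bt).coeff 0 = al := by rw [coeff_sub, hv0, hb0, hal]
  have haz : ZF ((v - bt).map Coef.emb) := by
    intro z hz h0
    rw [Polynomial.map_sub, eval_sub] at h0
    have h2 := hlt z hz
    rw [sub_eq_zero.mp h0] at h2
    exact lt_irrefl _ h2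
  have hnE : nE al = N * N + 3 - 3 * N := by rw [hal]; exact nE_al he hN
  have hnER : (nE al : ℝ) = (N : ℝ) * N - 3 * N + 3 := by
    rw [hnE]
    have h3 : 3 * N ≤ N * N + 3 := by nlinarith
    rw [Nat.cast_sub h3]
    push_cast
    ring
  have halr : 1 ≤ ‖(Coef.emb al : ℂ)‖ := by
    have h1 : ‖(Coef.emb al : ℂ)‖ ^ 2 = (N : ℝ) * N - 3 * N + 3 := by rw [← nE_cast, hnER]
    nlinarith [norm_nonneg (Coef.emb al : ℂ)]
  have hcl := classV_of hU hap (by rw [hap0]; exact halr) haz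
  rw [hap0] at hcl
  have hM0 : M (H.coeff 0) ^ 2 = (N : ℝ) * N - N + 1 := by
    rw [((hMV Eis).1 _ _ hcv).2, ← hvN, hv0, map_sub, embN, ← Complex.normSq_eq_norm_sq,
      Complex.normSq_apply, Complex.sub_re, Complex.sub_im, he.re]
    have h1 := he.im
    simp only [Complex.intCast_re, Complex.intCast_im, zero_sub, neg_mul_neg]
    push_cast
    nlinarith
  have hMb : 1 ≤ M (H.coeff b) := (hMm Eis).2.1 _
  obtain ⟨gc, nb, hgc, hnb, hgn, hrk, hcnt⟩ := norms hE1 hMV hMm hG1 hLsn hR hRS hEv hEvm fd hI hcl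
  rw [hnE] at hgn
  rw [hfull] at hrk
  have hrkt : 2 * N ≤ (snp phi b j G).card + Bbg nb + 3 := by omega
  rw [hM0] at hcnt
  have hcnt' : ((snp phi b j G).card : ℝ) * Real.sqrt nb *
      Real.sqrt ((N * N + 3 - 3 * N : ℕ) : ℝ) ≤ (N : ℝ) * N - N := by
    rw [← hnE]
    nlinarith
  by_contra hne
  have hMc1 : 1 ≤ M c := (hMm Eis).2.1 _
  have hgc3 : 3 ≤ nE gc := by
    apply three_le_nE
    rw [hgc]
    exact lt_of_le_of_ne hMc1 (Ne.symm hne)
  by_cases hN4 : 4 ≤ N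
  · exact num_mc hN4 hgc3 hnb hgn hcnt' hrkt
  -- `N = 3`
  obtain rfl : N = 3 := by omega
  have hnb1 : nb = 1 := by
    rcases hnb with h1 | h1
    · exact h1
    · exfalso
      have h2 : 9 ≤ nE gc * nb := Nat.mul_le_mul hgc3 h1
      omega
  subst hnb1
  have hgc3' : nE gc = 3 := by omega
  have hBb : Bbg 1 = 0 := by unfold Bbg; simp
  rw [hBb] at hrkt
  have hcard : 3 ≤ (snp phi b j G).card := by omega
  obtain ⟨m0, s, hms⟩ := nf_of_unit hU hap
  have hvapne : v - bt ≠ 0 := by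
    intro h1
    rw [h1, coeff_zero] at hap0
    rw [← hap0, map_zero, norm_zero] at halr
    linarith
  have hsne : (Coef.emb (s : Eis) : ℂ) ≠ 0 := by
    rw [← norm_pos_iff, norm_unit]
    exact one_pos
  have hdbl : ∀ z0 : ℂ, ‖z0‖ = 1 → ¬ (X - C z0) ^ 2 ∣ (C (s : Eis) * (v - bt)).map Coef.emb := by
    intro z0 hz0 hdv
    rw [Polynomial.map_mul, map_C] at hdv
    have h1 : (X - C z0) ^ 2 ∣ (v - bt).map (Coef.emb : Eis →+* ℂ) := by
      have h2 : IsUnit (C (Coef.emb (s : Eis)) : ℂ[X]) :=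
        isUnit_C.mpr (isUnit_iff_ne_zero.mpr hsne)
      exact (h2.dvd_mul_left).mp hdv
    refine hNd (v.map Coef.emb) ((v - bt).map Coef.emb) z0 hvcl ?_ ?_ hz0 h1
    · intro z hz
      have h2 := hle z hz
      rw [Polynomial.map_sub, eval_sub, sub_mul, Complex.sub_re, Complex.mul_conj,
        Complex.normSq_eq_norm_sq, Complex.ofReal_re]
      have h3 := Complex.re_le_norm ((bt.map (Coef.emb : Eis →+* ℂ)).eval z *
        (starRingEnd ℂ) ((v.map (Coef.emb : Eis →+* ℂ)).eval z))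
      rw [norm_mul, RCLike.norm_conj] at h3
      nlinarith [norm_nonneg ((v.map (Coef.emb : Eis →+* ℂ)).eval z)]
    · intro h2
      apply hvapne
      apply Polynomial.map_injective (Coef.emb : Eis →+* ℂ) Kev.emb_inj
      rw [h2, Polynomial.map_zero]
  obtain ⟨m, t, hmt, hineq⟩ := qse hSm hQst hQp hKe hMm hMV hE1 hDb hNn hHp3 hGen hSl hEvR hSh
    hDe hZ hUA hFace hStS hMu hE2 hPr hB3 hFull phi H b j u hj c n G fd _ hcl m0
    (C (s : Eis) * (v - bt)) hms hdbl
  have hMc3 : M c ^ 2 = 3 := by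
    rw [← hgc, ← nE_cast, hgc3']
    norm_num
  have hm13 : ∀ l ∈ snp phi b j G, m l = 1 ∨ m l = 3 := by
    intro l hl
    obtain ⟨h1, h2, -, -, k0, s', h3, -⟩ := hmt l hl
    rw [hMc3] at h2
    have h4 : m l ≤ 3 := by exact_mod_cast h2
    have h5 : m l ≠ 2 := by
      intro h6
      rw [h6] at h3
      apply Pool.Agent.MP_b5021c_nt.Eis.norm_ne_two k0
      have h0 := Pool.Agent.MP_b5021c_nt.Eis.norm_nonneg k0
      unfold nE at h3
      omega
    omega
  -- the total mass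
  obtain ⟨r, hrd⟩ : ∃ r : Fin n → ℕ, ∀ l, r l = 3 / m l := ⟨_, fun l => rfl⟩
  have hrm : ∀ l ∈ snp phi b j G, r l * m l = 3 := by
    intro l hl
    rw [hrd]
    rcases hm13 l hl with h1 | h1 <;> rw [h1]
  obtain ⟨T, hT⟩ : ∃ T : RO Eis, T = ∑ l ∈ snp phi b j G,
    LaurentPolynomial.C ((r l : ℕ) : Eis) * t l := ⟨_, rfl⟩
  have hTe : ∀ z : Circle, evR z T = ∑ l ∈ snp phi b j G, (r l : ℂ) * evR z (t l) := by
    intro z
    rw [hT, map_sum]
    refine Finset.sum_congr rfl fun l _ => ?_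
    rw [map_mul]
    congr 1
    unfold evR
    rw [LaurentPolynomial.eval₂_C, map_natCast]
  have hTre : ∀ z : Circle, (evR z T).re =
      3 * ∑ l ∈ snp phi b j G, (evR z (t l)).re / (m l : ℝ) := by
    intro z
    rw [hTe, Complex.re_sum, Finset.mul_sum]
    refine Finset.sum_congr rfl fun l hl => ?_
    have h1 : ((r l : ℕ) : ℝ) * (m l : ℝ) = 3 := by exact_mod_cast hrm l hl
    have h2 : (m l : ℝ) ≠ 0 := by
      intro h3
      rw [h3, mul_zero] at h1
      norm_num at h1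
    rw [← Complex.ofReal_natCast, Complex.re_ofReal_mul, ← h1]
    field_simp
  have hTn : NnR T := by
    intro z
    constructor
    · rw [hTe, Complex.im_sum]
      apply Finset.sum_eq_zero
      intro l hl
      rw [← Complex.ofReal_natCast, Complex.im_ofReal_mul, ((hmt l hl).2.2.2.1 z).1, mul_zero]
    · rw [hTre]
      apply mul_nonneg (by norm_num)
      apply Finset.sum_nonneg
      intro l hl
      exact div_nonneg ((hmt l hl).2.2.2.1 z).2 (Nat.cast_nonneg _)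
  have hT0c : (Coef.emb (T.coeff 0) : ℂ) =
      ∑ l ∈ snp phi b j G, (r l : ℂ) * Coef.emb ((t l).coeff 0) := by
    rw [hT]
    have h1 : (∑ l ∈ snp phi b j G, LaurentPolynomial.C ((r l : ℕ) : Eis) * t l :
        RO Eis).coeff 0 = ∑ l ∈ snp phi b j G, ((r l : ℕ) : Eis) * (t l).coeff 0 := by
      rw [AddMonoidAlgebra.coeff_sum, Finset.sum_apply']
      refine Finset.sum_congr rfl fun l _ => ?_
      change (AddMonoidAlgebra.single 0 ((r l : ℕ) : Eis) * t l).coeff 0 = _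
      rw [AddMonoidAlgebra.coeff_single_mul_apply, neg_zero, zero_add]
    rw [h1, map_sum]
    refine Finset.sum_congr rfl fun l _ => ?_
    rw [map_mul, map_natCast]
  have hge : ∀ l ∈ snp phi b j G, (3 : ℝ) ≤ ((r l : ℂ) * Coef.emb ((t l).coeff 0)).re := by
    intro l hl
    obtain ⟨h1, h2, ht0, htn, k0, s', h3, h4⟩ := hmt l hl
    obtain ⟨him, -, hor⟩ := hNr Eis (t l) ht0 htn
    have hpos : 0 < (Coef.emb ((t l).coeff 0) : ℂ).re := by
      rcases hor with h5 | h5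
      · rw [h5]
        have h6 : (1 : RO Eis).coeff 0 = 1 := by
          change (AddMonoidAlgebra.single (0 : ℤ) (1 : Eis)).coeff 0 = 1
          rw [AddMonoidAlgebra.coeff_single, Finsupp.single_eq_same]
        rw [h6, map_one, Complex.one_re]
        exact one_pos
      · linarith
    have hx : (t l).coeff 0 = (Coef.conj : Eis ≃+* Eis) k0 * s'.coeff 0 := by
      rw [h4]
      change (AddMonoidAlgebra.single 0 ((Coef.conj : Eis ≃+* Eis) k0) * s').coeff 0 = _
      rw [AddMonoidAlgebra.coeff_single_mul_apply, neg_zero, zero_add]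
    have h5 := mass_int hx him hpos h3 (hm13 l hl)
    rw [← Complex.ofReal_natCast, Complex.re_ofReal_mul]
    have h6 : ((r l : ℕ) : ℝ) * (m l : ℝ) = 3 := by exact_mod_cast hrm l hl
    rw [← h6]
    exact mul_le_mul_of_nonneg_left h5 (Nat.cast_nonneg _)
  have hT0ge : (9 : ℝ) ≤ (Coef.emb (T.coeff 0) : ℂ).re := by
    rw [hT0c, Complex.re_sum]
    have h1 := Finset.sum_le_sum hge
    rw [Finset.sum_const, nsmul_eq_mul] at h1
    have h2 : (3 : ℝ) ≤ ((snp phi b j G).card : ℝ) := by exact_mod_cast hcard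
    linarith
  have hTne : T ≠ 0 := by
    intro h1
    rw [h1] at hT0ge
    have h2 : (0 : RO Eis).coeff 0 = 0 := rfl
    rw [h2, map_zero, Complex.zero_re] at hT0ge
    norm_num at hT0ge
  have hevw : ∀ (x : RO Eis) (p : Eis[X]) (z : Circle), (w : RO Eis) * x = toLaurent p →
      evR z (w : RO Eis) * evR z x = (p.map (Coef.emb : Eis →+* ℂ)).eval (z : ℂ) := by
    intro x p z hx
    rw [← map_mul, hx, H07.evR_toLaurent]
  have hwn : ∀ z : Circle, evR z (w : RO Eis) * (starRingEnd ℂ) (evR z (w : RO Eis)) = 1 := by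
    intro z
    rw [Complex.mul_conj, Complex.normSq_eq_norm_sq, (hEvR Eis).2.1 z _ w.isUnit]
    norm_num
  have hfin := msum hNr hHp T 3 (by norm_num) v (-bt) hTne hTn hvcl
    (by rw [← sub_eq_add_neg]; exact haz) (by
      intro z hz
      rw [Polynomial.map_neg, eval_neg, norm_neg]
      exact hle z hz) (by
      intro z
      rw [← sub_eq_add_neg]
      have h1 := hineq z
      have h2 := hevw _ _ z hv
      have h3 := hevw _ _ z hap
      have h4 : ‖evR z (H.coeff 0 + (u : RO Eis) * H.coeff b)‖ =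
          ‖((v - bt).map (Coef.emb : Eis →+* ℂ)).eval (z : ℂ)‖ := by
        rw [← h3, norm_mul, (hEvR Eis).2.1 z _ w.isUnit, one_mul]
      have h5 : evR z (H.coeff 0) *
          (starRingEnd ℂ) (evR z (H.coeff 0 + (u : RO Eis) * H.coeff b)) =
          (v.map (Coef.emb : Eis →+* ℂ)).eval (z : ℂ) *
          (starRingEnd ℂ) (((v - bt).map (Coef.emb : Eis →+* ℂ)).eval (z : ℂ)) := by
        rw [← h2, ← h3, map_mul]
        linear_combination (-(evR z (H.coeff 0) *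
          (starRingEnd ℂ) (evR z (H.coeff 0 + (u : RO Eis) * H.coeff b)))) * hwn z
      rw [h4, h5] at h1
      rw [hTre, mul_assoc]
      exact mul_le_mul_of_nonneg_left h1 (by norm_num))
  have hvbt : (v + -bt).coeff 0 = al := by rw [← sub_eq_add_neg, hap0]
  rw [hvbt, hv0] at hfin
  have hn3 : ‖(Coef.emb al : ℂ)‖ ^ 2 = 3 := by
    rw [← nE_cast, hnER]
    norm_num
  have hre : ((Coef.emb (((3 : ℕ) : ℤ) - et : Eis) : ℂ) * (starRingEnd ℂ) (Coef.emb al)).re =
      9 / 2 := by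
    have h1 : (Coef.emb (((3 : ℕ) : ℤ) - et : Eis) : ℂ) = Coef.emb al + 1 := by
      rw [hal, map_sub, map_sub, map_sub, map_one]
      ring
    rw [h1, add_mul, one_mul, Complex.mul_conj, Complex.normSq_eq_norm_sq, hn3, Complex.add_re,
      Complex.ofReal_re, Complex.conj_re, hal, map_sub, map_sub, embN, map_one, Complex.sub_re,
      Complex.sub_re, he.re, Complex.one_re, Complex.intCast_re]
    push_cast
    norm_num
  rw [hn3, hre] at hfin
  linarith

end Main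

end Pool.Agent.B5.BP52
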