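import Pool.Agent.Lib.MP_b5021c_nt.BP.H52.Mc1
import Pool.Agent.Lib.MP_b5021c_nt.BP.H12.T2m

/-!
# Board b5, BpS, row (D) (helper52): `mc_one` in the form `BP12.McOneS`
-/

namespace Pool.Agent.B5.BP52

open Pool.Agent.B5

/-- (MCONE). -/
theorem mcOneS (hSm : SmallS) (hQst : QstS) (hQp : Qp3S) (hKe : KerEvS) (hMm : MmulS)
    (hMV : MVS) (hE1 : E1S) (hDb : Db3S) (hNn : Nn3S) (hHp3 : Hp3S) (hGen : GenS)
    (hSl : SlEvalS) (hEvR : EvRS) (hSh : SharpS) (hDe : DensS) (hZ : ZfinS) (hUA : UnitAS)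
    (hFace : FaceS) (hStS : StSpecS) (hMu : MultiS) (hE2 : E2S) (hPr : PrimS) (hB3 : B3S)
    (hFull : FullS) (hG1 : G1pS) (hLsn : LsnS) (hR : ResWDS) (hRS : ResStS) (hEv : EvS)
    (hEvm : EvmS) (hU : UnitRS) (hVZ : VZS) (hRk : RkS) (hNd : Nd3vS) (hNr : Nr3S)
    (hHp : HpgS) : BP12.McOneS := by
  intro P L _ _ _ _ _ phi H b j u hj c n G et N NV w v bt fd hI he hN hr hcv hv hv0 hb hb0 hfull
  exact mc_one hSm hQst hQp hKe hMm hMV hE1 hDb hNn hHp3 hGen hSl hEvR hSh hDe hZ hUA hFace hStS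
    hMu hE2 hPr hB3 hFull hG1 hLsn hR hRS hEv hEvm hU hVZ hRk hNd hNr hHp fd hI he hN hr hcv hv
    hv0 hb hb0 hfull

end Pool.Agent.B5.BP52
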